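import Mathlib

/-!
Definitions and interface statements for MP_405077_mp
(monotonicity of the Thomas-Fermi electronic energy under dilation).
-/

set_option autoImplicit false

open MeasureTheory Set Filter Topology

namespace Pool.Agent.Lib.MP_405077_mp

/-- Three-dimensional Euclidean space. -/
abbrev E3 := EuclideanSpace ℝ (Fin 3)

/-- Coulomb potential `U_q = q * 1/|x|`. -/
noncomputable def pot (q : E3 → ℝ) (x : E3) : ℝ := ∫ y, q y / ‖x - y‖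

/-- The gradient of `U_q` (for nice `q`): `∫ q(y) (y - x)/|x-y|^3 dy`. -/
noncomputable def field (q : E3 → ℝ) (x : E3) : E3 := ∫ y, (q y / ‖x - y‖ ^ 3) • (y - x)

/-- Gradient of a function on `E3` (total, via `fderiv`). -/
noncomputable def grad (u : E3 → ℝ) (x : E3) : E3 := gradient u x

/-- Bounded measurable functions with bounded support. -/
structure BC (q : E3 → ℝ) : Prop where
  meas : Measurable q
  bdd : ∃ M : ℝ, ∀ x, |q x| ≤ M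
  supp : ∃ r : ℝ, ∀ x, r < ‖x‖ → q x = 0

/-- Admissible densities: nonnegative, in `L^1` and `L^{5/3}`. -/
structure Adm (σ : E3 → ℝ) : Prop where
  nonneg : ∀ x, 0 ≤ σ x
  int : Integrable σ
  int53 : Integrable (fun x => σ x ^ (5 / 3 : ℝ))

/-- Kinetic term without the constant: `(3/5) ∫ σ^{5/3}`. -/
noncomputable def kin (σ : E3 → ℝ) : ℝ := 3 / 5 * ∫ x, σ x ^ (5 / 3 : ℝ)

/-- Coulomb self-energy `D(σ) = 1/2 ∫∫ σ(x)σ(y)/|x-y|`. -/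
noncomputable def dir (σ : E3 → ℝ) : ℝ := 1 / 2 * ∫ x, σ x * pot σ x

/-- Potential of the point nuclei. -/
noncomputable def nuc {k : ℕ} (z : Fin k → ℝ) (R : Fin k → E3) (x : E3) : ℝ :=
  ∑ i, z i / ‖x - R i‖

/-- The functional `τ² γ K(σ) - τ (∫ V σ - D(σ)) + μ ∫ σ` with external potential `V`. -/
noncomputable def fun0 (γ τ μ : ℝ) (V σ : E3 → ℝ) : ℝ :=
  τ ^ 2 * γ * kin σ - τ * ((∫ x, V x * σ x) - dir σ) + μ * ∫ x, σ x

/-- A solution of the Thomas-Fermi equation for a smeared nuclear charge `m`. -/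
structure IsTF (γ μ : ℝ) (m ρ : E3 → ℝ) : Prop where
  bc : BC ρ
  eq : ∀ x, ρ x = (max (pot m x - pot ρ x - μ) 0 / γ) ^ (3 / 2 : ℝ)

/-! ### Interface statements -/

/-- The surface measure of the unit sphere of `E3`. -/
noncomputable def sph : Measure (Metric.sphere (0 : E3) 1) := (volume : Measure E3).toSphere

/-- POLAR: integration in polar coordinates in `E3`, and the area of the sphere. -/
def PolarStatement : Prop :=
  (∀ F : E3 → ℝ, Integrable F →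
    (∀ᵐ (ω : Metric.sphere (0 : E3) 1) ∂sph, IntegrableOn (fun r : ℝ => r ^ 2 * F (r • (ω : E3))) (Ioi 0)) ∧
    (∫ z, F z) = ∫ ω : Metric.sphere (0 : E3) 1, (∫ r in Ioi (0 : ℝ), r ^ 2 * F (r • (ω : E3))) ∂sph) ∧
  sph.real univ = 4 * Real.pi

/-- ADM: basic facts on admissible densities. -/
def AdmStatement : Prop :=
  ∀ σ : E3 → ℝ, Adm σ →
    (∀ x, Integrable (fun y => σ y / ‖x - y‖)) ∧
    (∃ C : ℝ, ∀ x, pot σ x ≤ C) ∧
    Integrable (fun x => σ x * pot σ x) ∧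
    Integrable (fun p : E3 × E3 => σ p.1 * σ p.2 / ‖p.1 - p.2‖) (volume.prod volume)

/-- POT: potentials of bounded functions with bounded support. -/
def PotStatement : Prop :=
  ∀ q : E3 → ℝ, BC q →
    (∀ x, Integrable (fun y => q y / ‖x - y‖)) ∧
    (∀ x, Integrable (fun y => (q y / ‖x - y‖ ^ 3) • (y - x))) ∧
    (∃ C : ℝ, ∀ x, |pot q x| * (1 + ‖x‖) ≤ C) ∧
    ContDiff ℝ 1 (pot q) ∧
    (∀ x, HasGradientAt (pot q) (field q x) x)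

/-- SYM: symmetry of the Coulomb form. -/
def SymStatement : Prop :=
  ∀ f g : E3 → ℝ, BC f → BC g → ∫ x, f x * pot g x = ∫ x, g x * pot f x

/-- GREEN: weak form of `-Δ U_q = 4 π q`. -/
def GreenStatement : Prop :=
  ∀ q u : E3 → ℝ, BC q → ContDiff ℝ 1 u → HasCompactSupport u →
    ∫ x, inner ℝ (field q x) (gradient u x) = 4 * Real.pi * ∫ x, q x * u x

/-- The bilinear form of the reflection kernel `(I - 2 d dᵀ/|d|²)/|d|`. -/
noncomputable def kerB (d a b : E3) : ℝ :=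
  (inner ℝ a b - 2 * inner ℝ d a * inner ℝ d b / ‖d‖ ^ 2) / ‖d‖

/-- KERN: the reflection kernel identity. -/
def KernStatement : Prop :=
  ∀ u : E3 → ℝ, ContDiff ℝ 1 u → HasCompactSupport u →
    ∫ x, ∫ y, kerB (x - y) (gradient u x) (gradient u y) = 12 * Real.pi * ∫ x, u x ^ 2

/-- LEVEL: inequality (C) of the paper proof. -/
def LevelStatement : Prop :=
  ∀ (m ρ : E3 → ℝ) (h : ℝ → ℝ) (r : ℝ), BC m → BC ρ → (∀ x, 0 ≤ m x) → (∀ x, 0 ≤ ρ x) →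
    ContDiff ℝ 1 h → Monotone h → (∀ s, h s ≤ 1) → (∀ s, s ≤ r → h s = 0) → 0 < r →
    3 * ∫ x, h (pot m x - pot ρ x) ^ 2 ≤
      (∫ x, deriv h (pot m x - pot ρ x) * (pot m x - pot ρ x)) +
      ∫ y, deriv h (pot m y - pot ρ y) *
        pot (fun x => (1 - h (pot m x - pot ρ x)) * ρ x) y

/-- VIRIAL: `K ≤ 3 D + 3 μ N` for smeared Thomas-Fermi solutions. -/
def VirialStatement : Prop :=
  ∀ (γ μ : ℝ) (m ρ : E3 → ℝ), 0 < γ → 0 < μ → BC m → (∀ x, 0 ≤ m x) → IsTF γ μ m ρ →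
    γ * kin ρ ≤ 3 * dir ρ + 3 * μ * ∫ x, ρ x

/-- POS: positivity of the Coulomb form. -/
def PosStatement : Prop :=
  ∀ f : E3 → ℝ, Integrable f →
    Integrable (fun p : E3 × E3 => f p.1 * f p.2 / ‖p.1 - p.2‖) (volume.prod volume) →
    0 ≤ ∫ x, f x * pot f x

/-- EXIST: existence of the minimiser for smeared nuclei. -/
def ExistStatement : Prop :=
  ∀ (γ μ : ℝ) (m : E3 → ℝ), 0 < γ → 0 < μ → BC m → (∀ x, 0 ≤ m x) →
    ∃ ρ : E3 → ℝ, IsTF γ μ m ρ ∧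
      ∀ σ : E3 → ℝ, Adm σ → fun0 γ 1 μ (pot m) ρ ≤ fun0 γ 1 μ (pot m) σ

/-- TAU: monotonicity in `τ` for smeared nuclei (the minimiser at `τ₂` beats everything at
`τ₁ ≤ τ₂`). -/
def TauStatement : Prop :=
  ∀ (γ μ τ₁ τ₂ : ℝ) (m : E3 → ℝ), 0 < γ → 0 < μ → 0 < τ₁ → τ₁ ≤ τ₂ → BC m → (∀ x, 0 ≤ m x) →
    ∃ ρ : E3 → ℝ, IsTF (τ₂ * γ) (μ / τ₂) m ρ ∧
      ∀ σ : E3 → ℝ, Adm σ → fun0 γ τ₂ μ (pot m) ρ ≤ fun0 γ τ₁ μ (pot m) σ

/-- LIM: the same for point nuclei, up to an arbitrarily small error. -/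
def LimStatement : Prop :=
  ∀ (k : ℕ) (z : Fin k → ℝ) (R : Fin k → E3) (γ μ τ₁ τ₂ : ℝ), (∀ i, 0 < z i) →
    0 < γ → 0 < μ → 0 < τ₁ → τ₁ ≤ τ₂ →
    ∀ (σ : E3 → ℝ) (δ : ℝ), Adm σ → 0 < δ →
      ∃ ρ : E3 → ℝ, Adm ρ ∧ fun0 γ τ₂ μ (nuc z R) ρ ≤ fun0 γ τ₁ μ (nuc z R) σ + δ

/-- BELOW: lower bound of the functional and trial functions. -/
def BelowStatement : Prop :=
  ∀ (k : ℕ) (z : Fin k → ℝ) (R : Fin k → E3) (γ τ : ℝ), (∀ i, 0 < z i) →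
    0 < γ → 0 < τ → ∀ lam : ℝ, 0 < lam →
      (∃ C : ℝ, ∀ σ : E3 → ℝ, Adm σ → ∫ x, σ x = lam → C ≤ fun0 γ τ 0 (nuc z R) σ) ∧
      (∀ δ : ℝ, 0 < δ → ∃ σ : E3 → ℝ, Adm σ ∧ ∫ x, σ x = lam ∧ fun0 γ τ 0 (nuc z R) σ ≤ δ)

/-- CONV: midpoint (and general) convexity of the functional. -/
def ConvStatement : Prop :=
  ∀ (k : ℕ) (z : Fin k → ℝ) (R : Fin k → E3) (γ τ : ℝ), (∀ i, 0 < z i) →
    0 < γ → 0 < τ → ∀ (σ₁ σ₂ : E3 → ℝ) (a b : ℝ), Adm σ₁ → Adm σ₂ → 0 ≤ a → 0 ≤ b → a + b = 1 →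
      Adm (fun x => a * σ₁ x + b * σ₂ x) ∧
      fun0 γ τ 0 (nuc z R) (fun x => a * σ₁ x + b * σ₂ x) ≤
        a * fun0 γ τ 0 (nuc z R) σ₁ + b * fun0 γ τ 0 (nuc z R) σ₂

/-- The constrained infimum `inf {τ² γ K - τ (A - D) : ∫ σ = lam}`. -/
noncomputable def einf {k : ℕ} (z : Fin k → ℝ) (R : Fin k → E3) (γ τ lam : ℝ) : ℝ :=
  sInf {t : ℝ | ∃ σ : E3 → ℝ, Adm σ ∧ ∫ x, σ x = lam ∧ t = fun0 γ τ 0 (nuc z R) σ}

/-- LEG: monotonicity of the constrained infimum in `τ`. -/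
def LegStatement : Prop :=
  ∀ (k : ℕ) (z : Fin k → ℝ) (R : Fin k → E3) (γ τ₁ τ₂ lam : ℝ), (∀ i, 0 < z i) →
    0 < γ → 0 < τ₁ → τ₁ ≤ τ₂ → 0 ≤ lam → einf z R γ τ₂ lam ≤ einf z R γ τ₁ lam

end Pool.Agent.Lib.MP_405077_mp
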