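import Mathlib

/-!
The Thomas-Fermi energy, exactly as in the problem MP_405077_mp.
-/

set_option autoImplicit false

open MeasureTheory

namespace Pool.Agent.Lib.MP_405077_mp.TF

/-- Three-dimensional Euclidean space. -/
abbrev Space := EuclideanSpace ℝ (Fin 3)

/-- The nuclear potential `V(x) = ∑ z_i / |x - R_i|`. -/
noncomputable def V {k : ℕ} (z : Fin k → ℝ) (R : Fin k → Space) (x : Space) : ℝ :=
  ∑ i, z i / ‖x - R i‖

/-- The nuclear repulsion `U = ∑_{i<j} z_i z_j / |R_i - R_j|`. -/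
noncomputable def U {k : ℕ} (z : Fin k → ℝ) (R : Fin k → Space) : ℝ :=
  ∑ i, ∑ j ∈ Finset.univ.filter (fun j => i < j), z i * z j / ‖R i - R j‖

/-- The Thomas-Fermi functional. -/
noncomputable def functional {k : ℕ} (γ : ℝ) (z : Fin k → ℝ) (R : Fin k → Space)
    (ρ : Space → ℝ) : ℝ :=
  3 / 5 * γ * (∫ x, ρ x ^ (5 / 3 : ℝ)) - (∫ x, V z R x * ρ x)
    + 1 / 2 * (∫ x, ∫ y, ρ x * ρ y / ‖x - y‖) + U z R

/-- The set of values of the functional on the densities `ρ ≥ 0` in `L^{5/3} ∩ L^1` with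
`∫ ρ = lam`. -/
def values {k : ℕ} (γ : ℝ) (z : Fin k → ℝ) (R : Fin k → Space) (lam : ℝ) : Set ℝ :=
  {t | ∃ ρ : Space → ℝ, (0 ≤ᵐ[volume] ρ) ∧ MemLp ρ (5 / 3) ∧ MemLp ρ 1 ∧ ∫ x, ρ x = lam ∧
    t = functional γ z R ρ}

/-- The Thomas-Fermi energy `E(lam)`. -/
noncomputable def E {k : ℕ} (γ : ℝ) (z : Fin k → ℝ) (R : Fin k → Space) (lam : ℝ) : ℝ :=
  sInf (values γ z R lam)

/-- The electronic energy `e(lam) = E(lam) - U`. -/
noncomputable def e {k : ℕ} (γ : ℝ) (z : Fin k → ℝ) (R : Fin k → Space) (lam : ℝ) : ℝ :=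
  E γ z R lam - U z R

end Pool.Agent.Lib.MP_405077_mp.TF
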